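import Pool.Agent.H393R2.DC.Rel

/-!
The dilation relation mod `q` and the convolution relation mod `q`.
-/

set_option autoImplicit false

namespace Pool.Agent.H393R2.DC

open Polynomial Finset

/-- the partial sum `∑_{k ≤ R} g_k b^{-k}` mod `q`, that is `U_R b^{-R}` -/
noncomputable def sg (b : ℕ) (U : ℕ → ℤ) (q R : ℕ) : ZMod q :=
  (U R : ZMod q) * ((b : ZMod q)⁻¹) ^ R

lemma S_sub_C_mul (b : ℕ) (A B : ℤ[X]) (c : ℤ) (R : ℕ) :
    S b (A - C c * B) R = S b A R - c * S b B R := by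
  unfold S
  rw [Finset.mul_sum, ← Finset.sum_sub_distrib]
  apply Finset.sum_congr rfl
  intro n _
  rw [Polynomial.coeff_sub, Polynomial.coeff_C_mul]
  ring

lemma sg_step (b : ℕ) (U : ℕ → ℤ) (q : ℕ) [Fact q.Prime] (hb : (b : ZMod q) ≠ 0) (R : ℕ)
    (h : dlt b U (R + 1) = 0) : sg b U q (R + 1) = sg b U q R := by
  unfold sg
  have : U (R + 1) = b * U R := by
    simp only [dlt] at h; linarith
  rw [this, pow_succ]
  push_cast
  field_simp

theorem dil (b G : ℕ) (U : ℕ → ℤ) (q : ℕ) [Fact q.Prime] (hb : (b : ZMod q) ≠ 0)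
    (N R : ℕ) (hR : R ≤ N) (h : R ∉ bad b G U q N) :
    (G : ZMod q) ^ (q / 2) * sg b U q R = sg b U q (R / q) := by
  have h0 : S b (RP G q (Pol b U N)) R = 0 := by
    by_contra hne
    exact h (Finset.mem_filter.2 ⟨Finset.mem_range.2 (by omega), hne⟩)
  unfold RP at h0
  rw [S_sub_C_mul, S_Pol b U N R hR] at h0
  have hF : ((X ^ q : ℤ[X]).map (Int.castRingHom (ZMod q))) = C (1 : ZMod q) * X ^ (q ^ 1) := by
    simp
  have h1 := S_comp_mod q b 1 (X ^ q) (Pol b U N) 1 hF R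
  rw [pow_one, S_Pol b U N (R / q) ((Nat.div_le_self _ _).trans hR), Polynomial.X_pow_comp] at h1
  have h2 : ((S b (Pol b U N ^ q) R : ℤ) : ZMod q) = (G : ZMod q) ^ (q / 2) * (U R : ZMod q) := by
    have : S b (Pol b U N ^ q) R = (G : ℤ) ^ (q / 2) * U R := by linarith
    rw [this]; push_cast; ring
  rw [h2, one_mul] at h1
  unfold sg
  rw [← mul_assoc, h1]
  have e : R = R % q + q * (R / q) := (Nat.mod_add_div R q).symm
  have hbR : ((b : ZMod q)⁻¹) ^ R = ((b : ZMod q)⁻¹) ^ (R % q) * ((b : ZMod q)⁻¹) ^ (R / q) := by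
    conv_lhs => rw [e]
    rw [pow_add, pow_mul, ZMod.pow_card]
  rw [hbR]
  have hbb : (b : ZMod q) ^ (R % q) * ((b : ZMod q)⁻¹) ^ (R % q) = 1 := by
    rw [← mul_pow, mul_inv_cancel₀ hb, one_pow]
  calc (b : ZMod q) ^ (R % q) * (U (R / q) : ZMod q) *
        (((b : ZMod q)⁻¹) ^ (R % q) * ((b : ZMod q)⁻¹) ^ (R / q))
      = ((b : ZMod q) ^ (R % q) * ((b : ZMod q)⁻¹) ^ (R % q)) *
        ((U (R / q) : ZMod q) * ((b : ZMod q)⁻¹) ^ (R / q)) := by ring
    _ = _ := by rw [hbb, one_mul]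

/-- `S_R(P^2)` as a convolution -/
lemma S_sq (b : ℕ) (U : ℕ → ℤ) (N R : ℕ) (hR : R ≤ N) :
    S b (Pol b U N ^ 2) R = ∑ i ∈ range (R + 1), dlt b U i * U (R - i) := by
  unfold S
  have h1 : ∀ n ∈ range (R + 1), (Pol b U N ^ 2).coeff n * (b : ℤ) ^ (R - n) =
      ∑ i ∈ range (n + 1), dlt b U i * dlt b U (n - i) * (b : ℤ) ^ (R - n) := by
    intro n hn
    rw [Finset.mem_range] at hn
    rw [pow_two, Polynomial.coeff_mul, Finset.Nat.sum_antidiagonal_eq_sum_range_succ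
      (fun i j => (Pol b U N).coeff i * (Pol b U N).coeff j), Finset.sum_mul]
    apply Finset.sum_congr rfl
    intro i hi
    rw [Finset.mem_range] at hi
    rw [Pol_coeff, Pol_coeff, if_pos (by omega), if_pos (by omega)]
  rw [Finset.sum_congr rfl h1]
  have h2 : ∀ i ∈ range (R + 1), dlt b U i * U (R - i) =
      ∑ j ∈ range (R - i + 1), dlt b U i * dlt b U j * (b : ℤ) ^ (R - i - j) := by
    intro i hi
    rw [Finset.mem_range] at hi
    rw [← S_Pol b U N (R - i) (by omega)]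
    unfold S
    rw [Finset.mul_sum]
    apply Finset.sum_congr rfl
    intro j hj
    rw [Finset.mem_range] at hj
    rw [Pol_coeff, if_pos (by omega)]
    ring
  rw [Finset.sum_congr rfl h2]
  rw [Finset.sum_sigma', Finset.sum_sigma']
  refine Finset.sum_nbij' (fun x => ⟨x.2, x.1 - x.2⟩) (fun x => ⟨x.1 + x.2, x.1⟩) ?_ ?_ ?_ ?_ ?_
  · rintro ⟨n, i⟩ h
    simp only [Finset.mem_sigma, Finset.mem_range] at h ⊢
    omega
  · rintro ⟨i, j⟩ h
    simp only [Finset.mem_sigma, Finset.mem_range] at h ⊢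
    omega
  · rintro ⟨n, i⟩ h
    simp only [Finset.mem_sigma, Finset.mem_range] at h ⊢
    simp only [Sigma.mk.injEq, heq_eq_eq, and_true]
    omega
  · rintro ⟨i, j⟩ h
    simp only [Finset.mem_sigma, Finset.mem_range] at h ⊢
    simp only [Sigma.mk.injEq, heq_eq_eq, true_and]
    omega
  · rintro ⟨n, i⟩ h
    simp only [Finset.mem_sigma, Finset.mem_range] at h ⊢
    congr 2
    omega

theorem conv (b G : ℕ) (U : ℕ → ℤ) (q : ℕ) [Fact q.Prime] (hb : (b : ZMod q) ≠ 0)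
    (N R : ℕ) (hR : R ≤ N) (h : R ∉ bad2 b G U N) :
    ∑ i ∈ range (R + 1), ((dlt b U i : ℤ) : ZMod q) * ((b : ZMod q)⁻¹) ^ i * sg b U q (R - i) =
      (G : ZMod q) := by
  have h0 : S b (Pol b U N ^ 2 - C (G : ℤ)) R = 0 := by
    by_contra hne
    exact h (Finset.mem_filter.2 ⟨Finset.mem_range.2 (by omega), hne⟩)
  have e0 : S b (Pol b U N ^ 2 - C (G : ℤ)) R = S b (Pol b U N ^ 2) R - G * (b : ℤ) ^ R := by
    have h1 := S_sub_C_mul b (Pol b U N ^ 2) 1 (G : ℤ) R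
    rw [mul_one] at h1
    rw [h1]
    congr 2
    unfold S
    rw [Finset.sum_eq_single 0]
    · simp
    · intro n _ hn
      rw [Polynomial.coeff_one, if_neg hn]; simp
    · intro hn; exact absurd (Finset.mem_range.2 (Nat.succ_pos _)) hn
  rw [e0, S_sq b U N R hR] at h0
  have h2 : ((∑ i ∈ range (R + 1), dlt b U i * U (R - i) : ℤ) : ZMod q) =
      (G : ZMod q) * (b : ZMod q) ^ R := by
    have : (∑ i ∈ range (R + 1), dlt b U i * U (R - i)) = G * (b : ℤ) ^ R := by linarith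
    rw [this]; push_cast; ring
  have hbb : (b : ZMod q) ^ R * ((b : ZMod q)⁻¹) ^ R = 1 := by
    rw [← mul_pow, mul_inv_cancel₀ hb, one_pow]
  calc ∑ i ∈ range (R + 1), ((dlt b U i : ℤ) : ZMod q) * ((b : ZMod q)⁻¹) ^ i * sg b U q (R - i)
      = (∑ i ∈ range (R + 1), ((dlt b U i * U (R - i) : ℤ) : ZMod q)) * ((b : ZMod q)⁻¹) ^ R := by
        rw [Finset.sum_mul]
        apply Finset.sum_congr rfl
        intro i hi
        rw [Finset.mem_range] at hi
        unfold sg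
        have : ((b : ZMod q)⁻¹) ^ R = ((b : ZMod q)⁻¹) ^ i * ((b : ZMod q)⁻¹) ^ (R - i) := by
          rw [← pow_add]; congr 1; omega
        rw [this]; push_cast; ring
    _ = (G : ZMod q) * (b : ZMod q) ^ R * ((b : ZMod q)⁻¹) ^ R := by
        rw [← h2]; push_cast; rfl
    _ = G := by rw [mul_assoc, hbb, mul_one]

end Pool.Agent.H393R2.DC
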