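import Mathlib

/-!
The geometric chains of positions: pure combinatorics.
-/

set_option autoImplicit false

namespace Pool.Agent.H393R2.DC

open Finset

/-- good starting points -/
def UU (q K : ℕ) (E : Finset ℕ) (N : ℕ) : Finset ℕ :=
  (range (N + 1)).filter (fun u => ∀ k < K, u / q ^ k ∉ E)

lemma mem_UU {q K : ℕ} {E : Finset ℕ} {N u : ℕ} :
    u ∈ UU q K E N ↔ u ≤ N ∧ ∀ k < K, u / q ^ k ∉ E := by
  unfold UU
  rw [Finset.mem_filter, Finset.mem_range, Nat.lt_succ_iff]

lemma geom_le {q : ℕ} (hq : 2 ≤ q) (K : ℕ) : ∑ k ∈ range K, q ^ k ≤ q ^ K := by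
  induction K with
  | zero => simp
  | succ K ih =>
    rw [Finset.sum_range_succ, pow_succ]
    have := Nat.mul_le_mul_left (q ^ K) hq
    omega

lemma compl_card {q : ℕ} (hq : 2 ≤ q) (K : ℕ) (E : Finset ℕ) (N : ℕ) :
    ((range (N + 1)).filter (fun u => u ∉ UU q K E N)).card ≤ E.card * q ^ K := by
  have hsub : (range (N + 1)).filter (fun u => u ∉ UU q K E N) ⊆
      (range K).biUnion (fun k => E.biUnion (fun e => Ico (e * q ^ k) ((e + 1) * q ^ k))) := by
    intro u hu
    rw [Finset.mem_filter, Finset.mem_range, Nat.lt_succ_iff, mem_UU] at hu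
    obtain ⟨hu1, hu2⟩ := hu
    have : ∃ k < K, u / q ^ k ∈ E := by
      by_contra hcon
      push Not at hcon
      exact hu2 ⟨hu1, hcon⟩
    obtain ⟨k, hk, hE⟩ := this
    rw [Finset.mem_biUnion]
    refine ⟨k, Finset.mem_range.2 hk, ?_⟩
    rw [Finset.mem_biUnion]
    refine ⟨u / q ^ k, hE, ?_⟩
    have hpos : 0 < q ^ k := pow_pos (by omega) _
    rw [Finset.mem_Ico]
    exact ⟨Nat.div_mul_le_self _ _, by
      rw [add_mul, one_mul]; exact Nat.lt_div_mul_add hpos⟩
  refine (Finset.card_le_card hsub).trans ?_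
  refine Finset.card_biUnion_le.trans ?_
  calc ∑ k ∈ range K, (E.biUnion (fun e => Ico (e * q ^ k) ((e + 1) * q ^ k))).card
      ≤ ∑ k ∈ range K, E.card * q ^ k := by
        apply Finset.sum_le_sum
        intro k _
        refine Finset.card_biUnion_le.trans ?_
        rw [← smul_eq_mul, ← Finset.sum_const]
        apply Finset.sum_le_sum
        intro e _
        rw [Nat.card_Ico, add_mul, one_mul]
        omega
    _ = E.card * ∑ k ∈ range K, q ^ k := by rw [Finset.mul_sum]
    _ ≤ E.card * q ^ K := Nat.mul_le_mul_left _ (geom_le hq K)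

lemma change {α : Type} (s : ℕ → α) (D : ℕ → Prop) (hD : ∀ k, ¬ D (k + 1) → s (k + 1) = s k)
    (a c : ℕ) (hac : a ≤ c) (h : s a ≠ s c) : ∃ d, D d ∧ a < d ∧ d ≤ c := by
  by_contra hcon
  push Not at hcon
  apply h
  induction c, hac using Nat.le_induction with
  | base => rfl
  | succ c hc ih =>
    have h1 : ¬ D (c + 1) := fun hd => by
      have := hcon (c + 1) hd (by omega)
      omega
    rw [hD c h1]
    apply ih
    · intro he; exact h (by rw [hD c h1]; exact he)
    · intro d hd hd1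
      have := hcon d hd hd1
      by_contra hle
      push Not at hle
      have : d = c + 1 := by omega
      exact h1 (this ▸ hd)

/-- the chain attached to `q` -/
theorem chain (q K N : ℕ) [Fact q.Prime] (hq : 3 ≤ q) (E : Finset ℕ) (s : ℕ → ZMod q)
    (D : ℕ → Prop) (hdil : ∀ R ≤ N, R ∉ E → s (R / q) = - s R)
    (hD : ∀ k, ¬ D (k + 1) → s (k + 1) = s k)
    (w : ℕ) (hw : w ∈ UU q (K + 1) E N) (hsw : s w ≠ 0) :
    ∃ u, w / q ≤ u ∧ ∀ k ≤ K, ∃ d, D d ∧ d ≤ N ∧ u < q ^ k * d ∧
      q ^ k * d ≤ u + (E.card * q ^ K + 1) := by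
  rw [mem_UU] at hw
  obtain ⟨hwN, hw2⟩ := hw
  have hneg : ∀ x : ZMod q, x ≠ 0 → -x ≠ x := by
    intro x hx h
    have h2 : (2 : ZMod q) * x = 0 := by
      have : x + x = 0 := by
        nth_rewrite 1 [← h]; ring
      linear_combination this
    rcases mul_eq_zero.1 h2 with h3 | h3
    · have : (2 : ZMod q) = ((2 : ℕ) : ZMod q) := by norm_num
      rw [this, ZMod.natCast_eq_zero_iff] at h3
      have := Nat.le_of_dvd (by norm_num) h3
      omega
    · exact hx h3
  have hwE : w ∉ E := by have := hw2 0 (by omega); simpa using this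
  have hw1 : s (w / q) = - s w := hdil w hwN hwE
  set w1 := w / q with hw1d
  have hw1w : w1 ≤ w := Nat.div_le_self _ _
  have hne : s w1 ≠ s w := by rw [hw1]; exact hneg _ hsw
  have hw1U : w1 ∈ UU q K E N := by
    rw [mem_UU]
    refine ⟨hw1w.trans hwN, fun k hk => ?_⟩
    have := hw2 (k + 1) (by omega)
    rwa [pow_succ', ← Nat.div_div_eq_div_mul] at this
  have hwU : w ∈ UU q K E N := by
    rw [mem_UU]
    exact ⟨hwN, fun k hk => hw2 k (by omega)⟩
  classical
  set T := (UU q K E N).filter (fun x => w1 ≤ x ∧ x ≤ w) with hT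
  set T' := T.filter (fun x => s x ≠ s w1) with hT'
  have hT'ne : T'.Nonempty := ⟨w, by
    rw [hT', hT, Finset.mem_filter, Finset.mem_filter]
    exact ⟨⟨hwU, hw1w, le_rfl⟩, hne.symm⟩⟩
  set v := T'.min' hT'ne with hv
  have hvT' : v ∈ T' := Finset.min'_mem _ _
  have hvmin : ∀ x ∈ T', v ≤ x := fun x hx => Finset.min'_le _ _ hx
  have hvT : v ∈ T := (Finset.mem_filter.1 hvT').1
  have hsv : s v ≠ s w1 := (Finset.mem_filter.1 hvT').2
  have hvb : w1 ≤ v ∧ v ≤ w := (Finset.mem_filter.1 hvT).2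
  have hw1v : w1 < v := lt_of_le_of_ne hvb.1 (fun h => hsv (by rw [← h]))
  set T'' := T.filter (fun x => x < v) with hT''
  have hT''ne : T''.Nonempty := ⟨w1, by
    rw [hT'', hT, Finset.mem_filter, Finset.mem_filter]
    exact ⟨⟨hw1U, le_rfl, hw1w⟩, hw1v⟩⟩
  set u := T''.max' hT''ne with hu
  have huT'' : u ∈ T'' := Finset.max'_mem _ _
  have humax : ∀ x ∈ T'', x ≤ u := fun x hx => Finset.le_max' _ _ hx
  have huT : u ∈ T := (Finset.mem_filter.1 huT'').1
  have huv : u < v := (Finset.mem_filter.1 huT'').2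
  have hub : w1 ≤ u ∧ u ≤ w := (Finset.mem_filter.1 huT).2
  have hsu : s u = s w1 := by
    by_contra hcon
    have : v ≤ u := hvmin u (Finset.mem_filter.2 ⟨huT, hcon⟩)
    omega
  have hsuv : s u ≠ s v := by rw [hsu]; exact hsv.symm
  have hgap : v - u ≤ E.card * q ^ K + 1 := by
    have h1 : Ioo u v ⊆ (range (N + 1)).filter (fun x => x ∉ UU q K E N) := by
      intro x hx
      rw [Finset.mem_Ioo] at hx
      rw [Finset.mem_filter, Finset.mem_range]
      refine ⟨by omega, fun hxU => ?_⟩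
      have hxT : x ∈ T := by
        rw [hT, Finset.mem_filter]
        exact ⟨hxU, by omega, by omega⟩
      have := humax x (Finset.mem_filter.2 ⟨hxT, hx.2⟩)
      omega
    have h2 := (Finset.card_le_card h1).trans (compl_card (by omega) K E N)
    rw [Nat.card_Ioo] at h2
    omega
  have hiter : ∀ x ∈ UU q K E N, ∀ k ≤ K, s (x / q ^ k) = (-1) ^ k * s x := by
    intro x hx k
    rw [mem_UU] at hx
    induction k with
    | zero => intro _; simp
    | succ k ih =>
      intro hk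
      have h1 := ih (by omega)
      have h2 := hdil (x / q ^ k) ((Nat.div_le_self _ _).trans hx.1) (hx.2 k (by omega))
      rw [pow_succ, ← Nat.div_div_eq_div_mul, h2, h1]
      ring
  refine ⟨u, hub.1, fun k hk => ?_⟩
  have h1 := hiter u (Finset.mem_filter.1 huT).1 k hk
  have h2 := hiter v (Finset.mem_filter.1 hvT).1 k hk
  have hne2 : s (u / q ^ k) ≠ s (v / q ^ k) := by
    rw [h1, h2]
    intro h
    apply hsuv
    have hm : ((-1 : ZMod q) ^ k) ≠ 0 := pow_ne_zero _ (neg_ne_zero.2 one_ne_zero)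
    exact mul_left_cancel₀ hm h
  obtain ⟨d, hd, hd1, hd2⟩ := change s D hD (u / q ^ k) (v / q ^ k)
    (Nat.div_le_div_right huv.le) hne2
  have hqk : 0 < q ^ k := pow_pos (by omega) _
  refine ⟨d, hd, ?_, ?_, ?_⟩
  · exact hd2.trans ((Nat.div_le_self _ _).trans (hvb.2.trans hwN))
  · have := (Nat.div_lt_iff_lt_mul hqk).1 hd1
    rwa [mul_comm] at this
  · have h3 : d * q ^ k ≤ v := (Nat.le_div_iff_mul_le hqk).1 hd2
    have h4 : q ^ k * d = d * q ^ k := mul_comm _ _
    omega

/-- a starting point where `s` does not vanish -/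
theorem start (q K N Z : ℕ) [Fact q.Prime] (hq : 2 ≤ q) (E E2 : Finset ℕ) (s c : ℕ → ZMod q)
    (Dn : Finset ℕ) (hc : ∀ i ≤ N, i ∉ Dn → c i = 0) (G : ZMod q) (hG : G ≠ 0)
    (hconv : ∀ R ≤ N, R ∉ E2 → ∑ i ∈ range (R + 1), c i * s (R - i) = G)
    (hcount : E2.card + Dn.card * (E.card * q ^ K) + Dn.card * Z ≤ N) :
    ∃ w ∈ UU q K E N, Z ≤ w ∧ s w ≠ 0 := by
  classical
  set B1 := Dn.biUnion (fun i => ((range (N + 1)).filter (fun u => u ∉ UU q K E N)).image
    (fun u => u + i)) with hB1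
  set B2 := Dn.biUnion (fun i => Ico i (i + Z)) with hB2
  have hb1 : B1.card ≤ Dn.card * (E.card * q ^ K) := by
    refine Finset.card_biUnion_le.trans ?_
    rw [← smul_eq_mul, ← Finset.sum_const]
    apply Finset.sum_le_sum
    intro i _
    exact Finset.card_image_le.trans (compl_card hq K E N)
  have hb2 : B2.card ≤ Dn.card * Z := by
    refine Finset.card_biUnion_le.trans ?_
    rw [← smul_eq_mul, ← Finset.sum_const]
    apply Finset.sum_le_sum
    intro i _
    rw [Nat.card_Ico]; omega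
  have hex : ∃ n ∈ range (N + 1), n ∉ E2 ∪ B1 ∪ B2 := by
    by_contra hcon
    push Not at hcon
    have h1 : (range (N + 1)).card ≤ (E2 ∪ B1 ∪ B2).card := Finset.card_le_card hcon
    rw [Finset.card_range] at h1
    have h2 := Finset.card_union_le (E2 ∪ B1) B2
    have h3 := Finset.card_union_le E2 B1
    omega
  obtain ⟨n, hn, hnot⟩ := hex
  rw [Finset.mem_range, Nat.lt_succ_iff] at hn
  rw [Finset.mem_union, Finset.mem_union] at hnot
  push Not at hnot
  obtain ⟨⟨hn1, hn2⟩, hn3⟩ := hnot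
  have hsum := hconv n hn hn1
  have hne : ∑ i ∈ range (n + 1), c i * s (n - i) ≠ 0 := by rw [hsum]; exact hG
  obtain ⟨i, hi, hi2⟩ := Finset.exists_ne_zero_of_sum_ne_zero hne
  rw [Finset.mem_range, Nat.lt_succ_iff] at hi
  have hiD : i ∈ Dn := by
    by_contra h
    apply hi2
    rw [hc i (hi.trans hn) h, zero_mul]
  refine ⟨n - i, ?_, ?_, ?_⟩
  · by_contra h
    apply hn2
    rw [hB1, Finset.mem_biUnion]
    refine ⟨i, hiD, ?_⟩
    rw [Finset.mem_image]
    refine ⟨n - i, ?_, by omega⟩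
    rw [Finset.mem_filter, Finset.mem_range]
    exact ⟨by omega, h⟩
  · by_contra h
    apply hn3
    rw [hB2, Finset.mem_biUnion]
    refine ⟨i, hiD, ?_⟩
    rw [Finset.mem_Ico]
    omega
  · intro h
    apply hi2
    rw [h, mul_zero]

end Pool.Agent.H393R2.DC
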