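import Mathlib

/-!
Chains of different primes share at most one point.
-/

set_option autoImplicit false

namespace Pool.Agent.H393R2.DC

open Finset

lemma union_bound (Q : Finset ℕ) (C : ℕ → Finset ℕ) (M : ℕ) (hC : ∀ q ∈ Q, (C q).card = M)
    (hI : ∀ p ∈ Q, ∀ q ∈ Q, p ≠ q → (C p ∩ C q).card ≤ 1) :
    2 * (Q.card * M) ≤ 2 * (Q.biUnion C).card + Q.card * Q.card := by
  classical
  induction Q using Finset.induction_on with
  | empty => simp
  | insert a Q ha ih =>
    have ih' := ih (fun q hq => hC q (Finset.mem_insert_of_mem hq))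
      (fun p hp q hq => hI p (Finset.mem_insert_of_mem hp) q (Finset.mem_insert_of_mem hq))
    rw [Finset.biUnion_insert, Finset.card_insert_of_notMem ha]
    have h1 : (C a ∩ Q.biUnion C).card ≤ Q.card := by
      have : C a ∩ Q.biUnion C ⊆ Q.biUnion (fun q => C a ∩ C q) := by
        intro x hx
        rw [Finset.mem_inter, Finset.mem_biUnion] at hx
        obtain ⟨hx1, q, hq, hx2⟩ := hx
        rw [Finset.mem_biUnion]
        exact ⟨q, hq, Finset.mem_inter.2 ⟨hx1, hx2⟩⟩
      refine (Finset.card_le_card this).trans (Finset.card_biUnion_le.trans ?_)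
      calc ∑ q ∈ Q, (C a ∩ C q).card ≤ ∑ _q ∈ Q, 1 := by
            apply Finset.sum_le_sum
            intro q hq
            exact hI a (Finset.mem_insert_self _ _) q (Finset.mem_insert_of_mem hq)
              (fun h => ha (h ▸ hq))
        _ = Q.card := by simp
    have h2 := Finset.card_union_add_card_inter (C a) (Q.biUnion C)
    have h3 := hC a (Finset.mem_insert_self _ _)
    nlinarith

lemma pow_ne_pow_of_prime {p q a c : ℕ} (hp : p.Prime) (hq : q.Prime) (hpq : p ≠ q)
    (ha : 1 ≤ a) (_hc : 1 ≤ c) : q ^ a ≠ p ^ c := by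
  intro h
  have h1 : q ∣ p ^ c := by rw [← h]; exact dvd_pow_self q (by omega)
  have h2 := hq.dvd_of_dvd_pow h1
  exact hpq ((Nat.prime_dvd_prime_iff_eq hq hp).1 h2).symm

/-- in one chain a larger exponent goes with a smaller element -/
lemma expo_le {q u H k k' x y : ℕ} (hq : 2 ≤ q) (hH : H ≤ u) (hxy : x ≤ y)
    (h1 : q ^ k * y ≤ u + H) (h2 : u < q ^ k' * x) : k ≤ k' := by
  by_contra h
  push Not at h
  have h3 : q ^ k = q ^ (k - k' - 1) * q * q ^ k' := by
    rw [← pow_succ, ← pow_add]; congr 1; omega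
  have h4 : 1 ≤ q ^ (k - k' - 1) := Nat.one_le_pow _ _ (by omega)
  have h5 : 2 * q ^ k' ≤ q ^ k := by
    rw [h3]
    calc 2 * q ^ k' ≤ q * q ^ k' := Nat.mul_le_mul_right _ hq
      _ = 1 * q * q ^ k' := by ring
      _ ≤ q ^ (k - k' - 1) * q * q ^ k' := by gcongr
  have h6 : 2 * (q ^ k' * x) ≤ q ^ k * x := by
    calc 2 * (q ^ k' * x) = (2 * q ^ k') * x := by ring
      _ ≤ q ^ k * x := Nat.mul_le_mul_right _ h5
  have h7 : q ^ k * x ≤ q ^ k * y := Nat.mul_le_mul_left _ hxy
  omega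

/-- the main combinatorial count -/
theorem multi (QQ : Finset ℕ) (K H Y Q : ℕ) (Dn : Finset ℕ) (hprime : ∀ q ∈ QQ, q.Prime)
    (hQ : ∀ q ∈ QQ, q ≤ Q) (hY : 2 * H * Q ^ K ≤ Y)
    (hch : ∀ q ∈ QQ, ∃ u, Y ≤ u ∧ ∀ k ≤ K, ∃ d ∈ Dn, u < q ^ k * d ∧ q ^ k * d ≤ u + H)
    (hr : QQ.card ≤ K + 1) : QQ.card * (K + 1) ≤ 2 * Dn.card := by
  classical
  rcases Finset.eq_empty_or_nonempty QQ with h0 | ⟨q0, hq0⟩
  · simp [h0]
  have hQ1 : 1 ≤ Q := (hprime q0 hq0).one_lt.le.trans (hQ q0 hq0)
  have hHY : 2 * H ≤ Y := by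
    calc 2 * H = 2 * H * 1 := by ring
      _ ≤ 2 * H * Q ^ K := Nat.mul_le_mul_left _ (Nat.one_le_pow _ _ hQ1)
      _ ≤ Y := hY
  choose! u hu d hd using hch
  set C : ℕ → Finset ℕ := fun q => (range (K + 1)).image (d q) with hC
  have hsub : QQ.biUnion C ⊆ Dn := by
    intro x hx
    rw [Finset.mem_biUnion] at hx
    obtain ⟨q, hq, hx⟩ := hx
    rw [hC, Finset.mem_image] at hx
    obtain ⟨k, hk, rfl⟩ := hx
    rw [Finset.mem_range, Nat.lt_succ_iff] at hk
    exact (hd q hq k hk).1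
  have hcard : ∀ q ∈ QQ, (C q).card = K + 1 := by
    intro q hq
    rw [hC]
    rw [Finset.card_image_of_injOn, Finset.card_range]
    intro k hk l hl hkl
    rw [Finset.mem_coe, Finset.mem_range, Nat.lt_succ_iff] at hk hl
    have h1 := hd q hq k hk
    have h2 := hd q hq l hl
    have hkl' : d q k = d q l := hkl
    have hY' := hu q hq
    have hq2 := (hprime q hq).two_le
    have a1 := expo_le hq2 (by omega : H ≤ u q) (le_of_eq hkl'.symm) h1.2.2 h2.2.1
    have a2 := expo_le hq2 (by omega : H ≤ u q) (le_of_eq hkl') h2.2.2 h1.2.1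
    omega
  have hint : ∀ p ∈ QQ, ∀ q ∈ QQ, p ≠ q → (C p ∩ C q).card ≤ 1 := by
    intro p hp q hq hpq
    rw [Finset.card_le_one]
    have key : ∀ x ∈ C p ∩ C q, ∀ y ∈ C p ∩ C q, ¬ x < y := by
      intro x hx y hy hxy
      rw [Finset.mem_inter] at hx hy
      obtain ⟨l', hl', hxl⟩ := Finset.mem_image.1 hx.1
      obtain ⟨k', hk', hxk⟩ := Finset.mem_image.1 hx.2
      obtain ⟨l, hl, hyl⟩ := Finset.mem_image.1 hy.1
      obtain ⟨k, hk, hyk⟩ := Finset.mem_image.1 hy.2
      rw [Finset.mem_range, Nat.lt_succ_iff] at hl' hk' hl hk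
      have X1 := hd p hp l' hl'
      have X2 := hd q hq k' hk'
      have Y1 := hd p hp l hl
      have Y2 := hd q hq k hk
      rw [hxl] at X1
      rw [hxk] at X2
      rw [hyl] at Y1
      rw [hyk] at Y2
      have hup := hu p hp
      have huq := hu q hq
      have hp2 := (hprime p hp).two_le
      have hq2 := (hprime q hq).two_le
      have c1 : l ≤ l' := expo_le hp2 (by omega) hxy.le Y1.2.2 X1.2.1
      have c2 : k ≤ k' := expo_le hq2 (by omega) hxy.le Y2.2.2 X2.2.1
      have c3 : l ≠ l' := by rintro rfl; omega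
      have c4 : k ≠ k' := by rintro rfl; omega
      obtain ⟨a, rfl⟩ : ∃ a, k' = k + a := ⟨k' - k, by omega⟩
      obtain ⟨c, rfl⟩ : ∃ c, l' = l + c := ⟨l' - l, by omega⟩
      have ha : 1 ≤ a := by omega
      have hc : 1 ≤ c := by omega
      have hne := pow_ne_pow_of_prime (hprime p hp) (hprime q hq) hpq ha hc
      -- closeness
      have close : ∀ (r k a : ℕ), 2 ≤ r → ∀ u, u < r ^ (k + a) * x → r ^ (k + a) * x ≤ u + H →
          u < r ^ k * y → r ^ k * y ≤ u + H →
          (r ^ a * x : ℤ) - y < H ∧ (y : ℤ) - r ^ a * x < H := by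
        intro r k a hr u h1 h2 h3 h4
        have hrk : 1 ≤ r ^ k := Nat.one_le_pow _ _ (by omega)
        have e : r ^ (k + a) * x = r ^ k * (r ^ a * x) := by rw [pow_add]; ring
        rw [e] at h1 h2
        have hrk' : (1 : ℤ) ≤ (r : ℤ) ^ k := by exact_mod_cast hrk
        have z1 : (u : ℤ) < (r : ℤ) ^ k * ((r : ℤ) ^ a * x) := by exact_mod_cast h1
        have z2 : (r : ℤ) ^ k * ((r : ℤ) ^ a * x) ≤ u + H := by exact_mod_cast h2
        have z3 : (u : ℤ) < (r : ℤ) ^ k * y := by exact_mod_cast h3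
        have z4 : (r : ℤ) ^ k * y ≤ u + H := by exact_mod_cast h4
        have w1 : (r : ℤ) ^ k * ((r : ℤ) ^ a * x - y) < H := by
          rw [mul_sub]; linarith
        have w2 : (r : ℤ) ^ k * ((y : ℤ) - (r : ℤ) ^ a * x) < H := by
          rw [mul_sub]; linarith
        have hH0 : (0 : ℤ) ≤ H := Int.natCast_nonneg _
        constructor
        · by_contra hcon
          push Not at hcon
          have : (0 : ℤ) ≤ (r : ℤ) ^ a * x - y := hH0.trans hcon
          nlinarith
        · by_contra hcon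
          push Not at hcon
          have : (0 : ℤ) ≤ (y : ℤ) - (r : ℤ) ^ a * x := hH0.trans hcon
          nlinarith
      have A := close q k a hq2 (u q) X2.2.1 X2.2.2 Y2.2.1 Y2.2.2
      have B := close p l c hp2 (u p) X1.2.1 X1.2.2 Y1.2.1 Y1.2.2
      have hx2H : x < 2 * H := by
        have hne' : (q : ℤ) ^ a - (p : ℤ) ^ c ≠ 0 := by
          intro h
          apply hne
          have : (q : ℤ) ^ a = (p : ℤ) ^ c := by linarith
          exact_mod_cast this
        have habs := Int.one_le_abs hne'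
        have h1 : |((q : ℤ) ^ a - (p : ℤ) ^ c) * x| < 2 * H := by
          rw [abs_lt]
          constructor <;> nlinarith [A.1, A.2, B.1, B.2]
        rw [abs_mul] at h1
        have hx0 : (0 : ℤ) ≤ x := Int.natCast_nonneg _
        rw [abs_of_nonneg hx0] at h1
        have h2 : (x : ℤ) < 2 * H := by nlinarith
        exact_mod_cast h2
      -- but `x` is large
      have h5 : q ^ (k + a) ≤ Q ^ K := by
        calc q ^ (k + a) ≤ Q ^ (k + a) := Nat.pow_le_pow_left (hQ q hq) _
          _ ≤ Q ^ K := Nat.pow_le_pow_right hQ1 hk'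
      have h6 : q ^ (k + a) * x ≤ Q ^ K * x := Nat.mul_le_mul_right _ h5
      have h7 : Q ^ K * x ≤ 2 * H * Q ^ K := by
        calc Q ^ K * x ≤ Q ^ K * (2 * H) := Nat.mul_le_mul_left _ hx2H.le
          _ = 2 * H * Q ^ K := by ring
      have h8 := X2.2.1
      omega
    intro x hx y hy
    have h1 := key x hx y hy
    have h2 := key y hy x hx
    omega
  have hub := union_bound QQ C (K + 1) hcard hint
  have h1 := Finset.card_le_card hsub
  have h2 : QQ.card * QQ.card ≤ QQ.card * (K + 1) := Nat.mul_le_mul_left _ hr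
  omega

end Pool.Agent.H393R2.DC
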