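import Pool.Agent.H393R2.DC.Dil
import Pool.Agent.H393R2.DC.Chain
import Pool.Agent.H393R2.DC.Multi

/-!
The finite form of the lower bound.
-/

set_option autoImplicit false

namespace Pool.Agent.H393R2.DC

open Finset

/-- the positions of the nonzero increments -/
def Dn (b : ℕ) (U : ℕ → ℤ) (N : ℕ) : Finset ℕ := (range (N + 1)).filter (fun i => dlt b U i ≠ 0)

theorem finite_bound (b G : ℕ) (U : ℕ → ℤ) (N K Q Z e : ℕ) (QQ : Finset ℕ)
    (hQQ : ∀ q ∈ QQ, q.Prime ∧ 3 ≤ q ∧ q ≤ Q ∧ (b : ZMod q) ≠ 0 ∧ (G : ZMod q) ^ (q / 2) = -1)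
    (hbad : ∀ q ∈ QQ, (bad b G U q N).card ≤ e) (hbad2 : (bad2 b G U N).card ≤ e)
    (h1 : e + (Dn b U N).card * (e * Q ^ (K + 1)) + (Dn b U N).card * Z ≤ N)
    (h2 : 2 * (e * Q ^ K + 1) * Q ^ K ≤ Z / Q) (h3 : QQ.card ≤ K + 1) :
    QQ.card * (K + 1) ≤ 2 * (Dn b U N).card := by
  refine multi QQ K (e * Q ^ K + 1) (Z / Q) Q (Dn b U N) (fun q hq => (hQQ q hq).1)
    (fun q hq => (hQQ q hq).2.2.1) h2 ?_ h3
  intro q hq
  obtain ⟨hqp, hq3, hqQ, hqb, hqG⟩ := hQQ q hq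
  have : Fact q.Prime := ⟨hqp⟩
  have hdil : ∀ R ≤ N, R ∉ bad b G U q N → sg b U q (R / q) = - sg b U q R := by
    intro R hR hRb
    have := dil b G U q hqb N R hR hRb
    rw [← this, hqG]; ring
  have hD : ∀ k, ¬ (dlt b U (k + 1) ≠ 0) → sg b U q (k + 1) = sg b U q k := by
    intro k hk
    push Not at hk
    exact sg_step b U q hqb k hk
  have hG0 : (G : ZMod q) ≠ 0 := by
    intro h
    rw [h, zero_pow (by omega)] at hqG
    have : (1 : ZMod q) = 0 := by linear_combination hqG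
    exact one_ne_zero this
  have hcd : ∀ i ≤ N, i ∉ Dn b U N → ((dlt b U i : ℤ) : ZMod q) * ((b : ZMod q)⁻¹) ^ i = 0 := by
    intro i hi hin
    have : dlt b U i = 0 := by
      by_contra h
      exact hin (Finset.mem_filter.2 ⟨Finset.mem_range.2 (by omega), h⟩)
    rw [this]; simp
  obtain ⟨w, hw, hwZ, hsw⟩ := start q (K + 1) N Z (by omega) (bad b G U q N) (bad2 b G U N)
    (sg b U q) (fun i => ((dlt b U i : ℤ) : ZMod q) * ((b : ZMod q)⁻¹) ^ i) (Dn b U N) hcd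
    (G : ZMod q) hG0 (fun R hR hR2 => conv b G U q hqb N R hR hR2) (by
      have a1 : (bad b G U q N).card * q ^ (K + 1) ≤ e * Q ^ (K + 1) :=
        Nat.mul_le_mul (hbad q hq) (Nat.pow_le_pow_left hqQ _)
      have a2 := Nat.mul_le_mul_left (Dn b U N).card a1
      omega)
  obtain ⟨u, hu, hch⟩ := chain q K N hq3 (bad b G U q N) (sg b U q) (fun k => dlt b U k ≠ 0)
    hdil hD w hw hsw
  refine ⟨u, ?_, fun k hk => ?_⟩
  · refine le_trans ?_ hu
    exact Nat.div_le_div hwZ hqQ (by omega)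
  · obtain ⟨d, hd, hdN, hd1, hd2⟩ := hch k hk
    refine ⟨d, Finset.mem_filter.2 ⟨Finset.mem_range.2 (by omega), hd⟩, hd1, hd2.trans ?_⟩
    have a1 : (bad b G U q N).card * q ^ K ≤ e * Q ^ K :=
      Nat.mul_le_mul (hbad q hq) (Nat.pow_le_pow_left hqQ _)
    omega

end Pool.Agent.H393R2.DC
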